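import Pool.Agent.H548.SC.Defs

/-!
Spanning-correlated and independence-correlated matroids, and the reduction of both properties to
the inequality `S11 * S00 ≤ S10 * S01` between sums over subsets of `E \ {e, f}`.
-/

set_option autoImplicit false
set_option linter.unusedSectionVars false
open Classical Finset

namespace Pool.Agent.H548.SC

/-- `s_{ef}(M; z) s(M; z) ≤ s_e(M; z) s_f(M; z)` for all distinct `e, f` and positive weights `z`;
the sums run over the spanning sets of `M` (for matroids whose ground set is the whole finite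
type `α`). -/
def SpanningCorrelated {α : Type} [Fintype α] (M : Matroid α) : Prop :=
  ∀ e f : α, e ≠ f → ∀ z : α → ℝ, (∀ x, 0 < z x) →
    (∑ A : Finset α, if M.Spanning (A : Set α) ∧ e ∈ A ∧ f ∈ A then ∏ a ∈ A, z a else 0) *
      (∑ A : Finset α, if M.Spanning (A : Set α) then ∏ a ∈ A, z a else 0) ≤
    (∑ A : Finset α, if M.Spanning (A : Set α) ∧ e ∈ A then ∏ a ∈ A, z a else 0) *
      (∑ A : Finset α, if M.Spanning (A : Set α) ∧ f ∈ A then ∏ a ∈ A, z a else 0)

/-- `i_{ef}(M; z) i(M; z) ≤ i_e(M; z) i_f(M; z)` for all distinct `e, f` and positive weights `z`;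
the sums run over the independent sets of `M` (for matroids whose ground set is the whole finite
type `α`). -/
def IndependenceCorrelated {α : Type} [Fintype α] (M : Matroid α) : Prop :=
  ∀ e f : α, e ≠ f → ∀ z : α → ℝ, (∀ x, 0 < z x) →
    (∑ A : Finset α, if M.Indep (A : Set α) ∧ e ∈ A ∧ f ∈ A then ∏ a ∈ A, z a else 0) *
      (∑ A : Finset α, if M.Indep (A : Set α) then ∏ a ∈ A, z a else 0) ≤
    (∑ A : Finset α, if M.Indep (A : Set α) ∧ e ∈ A then ∏ a ∈ A, z a else 0) *
      (∑ A : Finset α, if M.Indep (A : Set α) ∧ f ∈ A then ∏ a ∈ A, z a else 0)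

section
variable {α : Type} [Fintype α]

/-- Split a sum over all subsets according to the intersection with `{e, f}`. -/
lemma sum_split (e f : α) (hef : e ≠ f) (φ : Finset α → ℝ) :
    ∑ A : Finset α, φ A = ∑ B ∈ ((univ : Finset α) \ {e, f}).powerset,
      (φ B + φ (insert f B) + φ (insert e B) + φ (insert e (insert f B))) := by
  have h1 : (univ : Finset (Finset α)) =
      (insert e (insert f ((univ : Finset α) \ {e, f}))).powerset := by
    rw [← Finset.powerset_univ]
    congr 1
    ext x
    simp only [mem_univ, mem_insert, mem_sdiff, mem_singleton, true_and, true_iff]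
    tauto
  rw [h1, Finset.sum_powerset_insert (by simp [hef]), Finset.sum_powerset_insert (by simp),
    Finset.sum_powerset_insert (by simp)]
  rw [← Finset.sum_add_distrib, ← Finset.sum_add_distrib, ← Finset.sum_add_distrib]
  apply Finset.sum_congr rfl
  intro B _
  ring

/-- The four sums over subsets of `E \ {e, f}`. -/
noncomputable def SS (e f : α) (p : Finset α → Prop) (z : α → ℝ) : ℝ :=
  ∑ B ∈ ((univ : Finset α) \ {e, f}).powerset with p B, ∏ a ∈ B, z a

lemma SS_nonneg (e f : α) (p : Finset α → Prop) (z : α → ℝ) (hz : ∀ x, 0 < z x) :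
    0 ≤ SS e f p z :=
  Finset.sum_nonneg (fun _ _ => Finset.prod_nonneg (fun x _ => (hz x).le))

lemma SS_mono (e f : α) (p q : Finset α → Prop) (z : α → ℝ) (hz : ∀ x, 0 < z x)
    (h : ∀ B, p B → q B) : SS e f p z ≤ SS e f q z := by
  apply Finset.sum_le_sum_of_subset_of_nonneg
  · intro B hB
    simp only [mem_filter] at hB ⊢
    exact ⟨hB.1, h B hB.2⟩
  · intro B _ _; exact Finset.prod_nonneg (fun x _ => (hz x).le)

variable {e f : α}

lemma sum_all (hef : e ≠ f) (p : Finset α → Prop) (z : α → ℝ) :
    (∑ A : Finset α, if p A then ∏ a ∈ A, z a else 0) =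
      SS e f p z + z f * SS e f (fun B => p (insert f B)) z +
      z e * SS e f (fun B => p (insert e B)) z +
      z e * z f * SS e f (fun B => p (insert e (insert f B))) z := by
  rw [sum_split e f hef]
  unfold SS
  simp only [Finset.sum_filter, Finset.mul_sum, ← Finset.sum_add_distrib]
  apply Finset.sum_congr rfl
  intro B hB
  simp only [mem_powerset] at hB
  have he : e ∉ B := fun h => by have := hB h; simp at this
  have hf : f ∉ B := fun h => by have := hB h; simp at this
  have he' : e ∉ insert f B := by simp [hef, he]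
  rw [Finset.prod_insert he', Finset.prod_insert he, Finset.prod_insert hf]
  split_ifs <;> ring

lemma sum_ef (hef : e ≠ f) (p : Finset α → Prop) (z : α → ℝ) :
    (∑ A : Finset α, if p A ∧ e ∈ A ∧ f ∈ A then ∏ a ∈ A, z a else 0) =
      z e * z f * SS e f (fun B => p (insert e (insert f B))) z := by
  rw [sum_split e f hef]
  unfold SS
  simp only [Finset.sum_filter, Finset.mul_sum]
  apply Finset.sum_congr rfl
  intro B hB
  simp only [mem_powerset] at hB
  have he : e ∉ B := fun h => by have := hB h; simp at this
  have hf : f ∉ B := fun h => by have := hB h; simp at this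
  have he' : e ∉ insert f B := by simp [hef, he]
  have hf' : f ∉ insert e B := by simp [hef.symm, hf]
  rw [Finset.prod_insert he', Finset.prod_insert he, Finset.prod_insert hf]
  simp only [he, hf, he', hf', mem_insert_self, mem_insert, or_true, and_false,
    and_true, if_false]
  split_ifs <;> ring

lemma sum_e (hef : e ≠ f) (p : Finset α → Prop) (z : α → ℝ) :
    (∑ A : Finset α, if p A ∧ e ∈ A then ∏ a ∈ A, z a else 0) =
      z e * SS e f (fun B => p (insert e B)) z +
      z e * z f * SS e f (fun B => p (insert e (insert f B))) z := by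
  rw [sum_split e f hef]
  unfold SS
  simp only [Finset.sum_filter, Finset.mul_sum, ← Finset.sum_add_distrib]
  apply Finset.sum_congr rfl
  intro B hB
  simp only [mem_powerset] at hB
  have he : e ∉ B := fun h => by have := hB h; simp at this
  have hf : f ∉ B := fun h => by have := hB h; simp at this
  have he' : e ∉ insert f B := by simp [hef, he]
  rw [Finset.prod_insert he', Finset.prod_insert he, Finset.prod_insert hf]
  simp only [he, he', mem_insert_self, and_false, and_true, if_false]
  split_ifs <;> ring

lemma sum_f (hef : e ≠ f) (p : Finset α → Prop) (z : α → ℝ) :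
    (∑ A : Finset α, if p A ∧ f ∈ A then ∏ a ∈ A, z a else 0) =
      z f * SS e f (fun B => p (insert f B)) z +
      z e * z f * SS e f (fun B => p (insert e (insert f B))) z := by
  rw [sum_split e f hef]
  unfold SS
  simp only [Finset.sum_filter, Finset.mul_sum, ← Finset.sum_add_distrib]
  apply Finset.sum_congr rfl
  intro B hB
  simp only [mem_powerset] at hB
  have he : e ∉ B := fun h => by have := hB h; simp at this
  have hf : f ∉ B := fun h => by have := hB h; simp at this
  have he' : e ∉ insert f B := by simp [hef, he]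
  have hf' : f ∉ insert e B := by simp [hef.symm, hf]
  rw [Finset.prod_insert he', Finset.prod_insert he, Finset.prod_insert hf]
  simp only [hf, hf', mem_insert_self, mem_insert, or_true, and_false, and_true, if_false]
  split_ifs <;> ring

/-- The reduced inequality for all pairs. -/
lemma core (hmat : StmtMatC) (M : Matroid α) (hE : M.E = Set.univ) (hr : M.eRank ≤ 3)
    (hef : e ≠ f) (z : α → ℝ) (hz : ∀ x, 0 < z x) :
    SS e f (fun B => M.Spanning ((insert e (insert f B) : Finset α) : Set α)) z *
      SS e f (fun B => M.Spanning (B : Set α)) z ≤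
    SS e f (fun B => M.Spanning ((insert e B : Finset α) : Set α)) z *
      SS e f (fun B => M.Spanning ((insert f B : Finset α) : Set α)) z := by
  have hsub : ∀ X : Set α, X ⊆ M.E := fun X => by rw [hE]; exact Set.subset_univ _
  by_cases hind : M.Indep {e, f}
  · exact hmat α M hE hr e f hef hind z hz
  · have hcl : e ∈ M.closure {f} ∨ f ∈ M.closure {e} := by
      by_contra hcon
      push Not at hcon
      apply hind
      have hf : M.Indep {f} := by
        rw [Matroid.indep_singleton]
        by_contra hl
        rw [Matroid.not_isNonloop_iff (hsub _ (Set.mem_singleton f) |> fun _ => by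
          rw [hE]; exact Set.mem_univ f)] at hl
        exact hcon.2 (hl.mem_closure _)
      have := (hf.notMem_closure_iff (by rw [hE]; exact Set.mem_univ e)).1 hcon.1
      exact this.1
    have hspan : ∀ X : Set α, M.Spanning X ↔ M.closure X = M.E := fun X =>
      Matroid.spanning_iff_closure_eq (hsub X)
    have hmono : ∀ (X Y : Set α), X ⊆ Y → M.Spanning X → M.Spanning Y := fun X Y hXY hX =>
      hX.superset hXY (hsub Y)
    rcases hcl with h | h
    · -- e in the closure of f
      have h1 : ∀ B : Finset α, M.Spanning ((insert e (insert f B) : Finset α) : Set α) →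
          M.Spanning ((insert f B : Finset α) : Set α) := by
        intro B hB
        rw [hspan] at hB ⊢
        rw [Finset.coe_insert, Matroid.closure_insert_eq_of_mem_closure] at hB
        · exact hB
        · exact M.closure_subset_closure (by simp) h
      calc _ ≤ SS e f (fun B => M.Spanning ((insert f B : Finset α) : Set α)) z *
            SS e f (fun B => M.Spanning ((insert e B : Finset α) : Set α)) z := by
            apply mul_le_mul (SS_mono e f _ _ z hz h1)
              (SS_mono e f _ _ z hz (fun B hB => hmono _ _ (by simp) hB))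
              (SS_nonneg _ _ _ _ hz) (SS_nonneg _ _ _ _ hz)
        _ = _ := mul_comm _ _
    · have h1 : ∀ B : Finset α, M.Spanning ((insert e (insert f B) : Finset α) : Set α) →
          M.Spanning ((insert e B : Finset α) : Set α) := by
        intro B hB
        rw [hspan] at hB ⊢
        rw [Finset.insert_comm, Finset.coe_insert,
          Matroid.closure_insert_eq_of_mem_closure] at hB
        · exact hB
        · exact M.closure_subset_closure (by simp) h
      apply mul_le_mul (SS_mono e f _ _ z hz h1)
        (SS_mono e f _ _ z hz (fun B hB => hmono _ _ (by simp) hB))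
        (SS_nonneg _ _ _ _ hz) (SS_nonneg _ _ _ _ hz)

theorem spanning_of (hmat : StmtMatC) (M : Matroid α) (hE : M.E = Set.univ) (hr : M.eRank ≤ 3) :
    SpanningCorrelated M := by
  intro e f hef z hz
  have hc := core hmat M hE hr hef z hz
  rw [sum_ef hef (fun A => M.Spanning (A : Set α)), sum_all hef (fun A => M.Spanning (A : Set α)),
    sum_e hef (fun A => M.Spanning (A : Set α)), sum_f hef (fun A => M.Spanning (A : Set α))]
  have he := hz e
  have hf := hz f
  have hpos : 0 ≤ z e * z f := (mul_pos he hf).le
  nlinarith [mul_le_mul_of_nonneg_left hc hpos]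

/-- Complementation of the summation variable. -/
lemma sum_compl_weight (p : Finset α → Prop) [DecidablePred p] (z : α → ℝ) (hz : ∀ x, 0 < z x) :
    (∑ A : Finset α, if p A then ∏ a ∈ A, z a else 0) =
      (∏ a, z a) * ∑ C : Finset α, if p Cᶜ then ∏ a ∈ C, (z a)⁻¹ else 0 := by
  rw [Finset.mul_sum]
  refine Finset.sum_nbij' (fun A => Aᶜ) (fun C => Cᶜ) ?_ ?_ ?_ ?_ ?_
  · intro A _; simp
  · intro A _; simp
  · intro A _; simp
  · intro A _; simp
  · intro A _
    rw [compl_compl]
    split_ifs
    · have h1 : (∏ a ∈ A, z a) * ∏ a ∈ Aᶜ, z a = ∏ a, z a := Finset.prod_mul_prod_compl A z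
      have h2 : (∏ a ∈ Aᶜ, z a) * (∏ a ∈ Aᶜ, (z a)⁻¹) = 1 := by
        rw [← Finset.prod_mul_distrib]
        apply Finset.prod_eq_one
        intro a _
        exact mul_inv_cancel₀ (hz a).ne'
      rw [← h1, mul_assoc, h2, mul_one]
    · simp

lemma indep_iff_dual_spanning (M : Matroid α) (hE : M.E = Set.univ) (C : Finset α) :
    M.Indep ((Cᶜ : Finset α) : Set α) ↔ M✶.Spanning (C : Set α) := by
  rw [Matroid.spanning_iff_compl_coindep (by simp [hE])]
  rw [Matroid.Coindep, Matroid.dual_dual, Matroid.dual_ground, hE]
  rw [Finset.coe_compl, Set.compl_eq_univ_sdiff]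

theorem indep_of (hmat : StmtMatC) (M : Matroid α) (hE : M.E = Set.univ) (hr : M✶.eRank ≤ 3) :
    IndependenceCorrelated M := by
  intro e f hef z hz
  set w : α → ℝ := fun a => (z a)⁻¹ with hw
  have hwpos : ∀ x, 0 < w x := fun x => inv_pos.2 (hz x)
  have hE' : M✶.E = Set.univ := by rw [Matroid.dual_ground, hE]
  have hc := core hmat M✶ hE' hr hef w hwpos
  have hZ : 0 < ∏ a, z a := Finset.prod_pos (fun x _ => hz x)
  rw [sum_compl_weight (fun A => M.Indep (A : Set α) ∧ e ∈ A ∧ f ∈ A) z hz,
    sum_compl_weight (fun A => M.Indep (A : Set α)) z hz,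
    sum_compl_weight (fun A => M.Indep (A : Set α) ∧ e ∈ A) z hz,
    sum_compl_weight (fun A => M.Indep (A : Set α) ∧ f ∈ A) z hz]
  simp only [indep_iff_dual_spanning M hE, Finset.mem_compl]
  have hall := sum_all hef (fun A => M✶.Spanning (A : Set α)) w
  have hes := sum_e hef (fun A => M✶.Spanning (A : Set α)) w
  have hfs := sum_f hef (fun A => M✶.Spanning (A : Set α)) w
  have hefs := sum_ef hef (fun A => M✶.Spanning (A : Set α)) w
  -- complements of the membership conditions
  have h1 : (∑ C : Finset α, if M✶.Spanning (C : Set α) ∧ e ∉ C then ∏ a ∈ C, w a else 0) =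
      (∑ C : Finset α, if M✶.Spanning (C : Set α) then ∏ a ∈ C, w a else 0) -
      (∑ C : Finset α, if M✶.Spanning (C : Set α) ∧ e ∈ C then ∏ a ∈ C, w a else 0) := by
    rw [← Finset.sum_sub_distrib]
    apply Finset.sum_congr rfl
    intro C _
    by_cases hs : M✶.Spanning (C : Set α) <;> by_cases h : e ∈ C <;> simp [hs, h]
  have h2 : (∑ C : Finset α, if M✶.Spanning (C : Set α) ∧ f ∉ C then ∏ a ∈ C, w a else 0) =
      (∑ C : Finset α, if M✶.Spanning (C : Set α) then ∏ a ∈ C, w a else 0) -
      (∑ C : Finset α, if M✶.Spanning (C : Set α) ∧ f ∈ C then ∏ a ∈ C, w a else 0) := by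
    rw [← Finset.sum_sub_distrib]
    apply Finset.sum_congr rfl
    intro C _
    by_cases hs : M✶.Spanning (C : Set α) <;> by_cases h : f ∈ C <;> simp [hs, h]
  have h3 : (∑ C : Finset α, if M✶.Spanning (C : Set α) ∧ e ∉ C ∧ f ∉ C
        then ∏ a ∈ C, w a else 0) =
      (∑ C : Finset α, if M✶.Spanning (C : Set α) then ∏ a ∈ C, w a else 0) -
      (∑ C : Finset α, if M✶.Spanning (C : Set α) ∧ e ∈ C then ∏ a ∈ C, w a else 0) -
      (∑ C : Finset α, if M✶.Spanning (C : Set α) ∧ f ∈ C then ∏ a ∈ C, w a else 0) +
      (∑ C : Finset α, if M✶.Spanning (C : Set α) ∧ e ∈ C ∧ f ∈ C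
        then ∏ a ∈ C, w a else 0) := by
    rw [← Finset.sum_sub_distrib, ← Finset.sum_sub_distrib, ← Finset.sum_add_distrib]
    apply Finset.sum_congr rfl
    intro C _
    by_cases hs : M✶.Spanning (C : Set α) <;> by_cases h : e ∈ C <;>
      by_cases h' : f ∈ C <;> simp [hs, h, h']
  rw [h1, h2, h3, hall, hes, hfs, hefs]
  have he := hwpos e
  have hf := hwpos f
  have hpos : 0 ≤ w e * w f := (mul_pos he hf).le
  have hmain := mul_le_mul_of_nonneg_left hc hpos
  have hZ2 : 0 ≤ (∏ a, z a) * (∏ a, z a) := (mul_pos hZ hZ).le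
  have := mul_le_mul_of_nonneg_left hmain hZ2
  nlinarith [this]

end

end Pool.Agent.H548.SC
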