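import Mathlib

/-!
Rank-three matroids are spanning-correlated (MP_c59e09_co).  Definitions and exact statements of
the pieces.  Complete proofs: `notes.md` in this folder.
-/

set_option autoImplicit false
open Classical Finset

namespace Pool.Agent.H548.SC

/-! ### Weighted grids -/

/-- Two cells of the grid are in general position: different rows and different columns. -/
def gen {ι κ : Type} (x y : ι × κ) : Prop := x.1 ≠ y.1 ∧ x.2 ≠ y.2

/-- Weight of a finite set of cells. -/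
noncomputable def wt {ι κ : Type} (t : ι × κ → ℝ) (S : Finset (ι × κ)) : ℝ := ∏ x ∈ S, t x

/-- Nonempty and contained in one row. -/
def isRow {ι κ : Type} (S : Finset (ι × κ)) : Prop :=
  S.Nonempty ∧ ∀ x ∈ S, ∀ y ∈ S, x.1 = y.1

/-- Nonempty and contained in one column. -/
def isCol {ι κ : Type} (S : Finset (ι × κ)) : Prop :=
  S.Nonempty ∧ ∀ x ∈ S, ∀ y ∈ S, x.2 = y.2

section
variable {ι κ : Type} [Fintype ι] [Fintype κ]

/-- Total weight. -/
noncomputable def T (t : ι × κ → ℝ) : ℝ := ∑ x, t x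

/-- Sum of `t x * t y` over unordered pairs of cells in general position. -/
noncomputable def K (t : ι × κ → ℝ) : ℝ :=
  (1 / 2) * ∑ x : ι × κ, ∑ y : ι × κ, if gen x y then t x * t y else 0

/-- Elementary symmetric sum of degree `k`. -/
noncomputable def eS (t : ι × κ → ℝ) (k : ℕ) : ℝ :=
  ∑ S ∈ (univ : Finset (Finset (ι × κ))) with S.card = k, wt t S

/-- Part of `eS t k` coming from sets in one row. -/
noncomputable def rS (t : ι × κ → ℝ) (k : ℕ) : ℝ :=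
  ∑ S ∈ (univ : Finset (Finset (ι × κ))) with isRow S ∧ S.card = k, wt t S

/-- Part of `eS t k` coming from sets in one column. -/
noncomputable def lS (t : ι × κ → ℝ) (k : ℕ) : ℝ :=
  ∑ S ∈ (univ : Finset (Finset (ι × κ))) with isCol S ∧ S.card = k, wt t S

/-- Sets of at least four cells not contained in a line. -/
noncomputable def N4 (ι κ : Type) [Fintype ι] [Fintype κ] : Finset (Finset (ι × κ)) :=
  univ.filter (fun S => 4 ≤ S.card ∧ ¬ isRow S ∧ ¬ isCol S)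

/-- Number of ordered pairs in general position. -/
noncomputable def G2 (W : Finset (ι × κ)) : ℕ := ((W ×ˢ W).filter (fun p => gen p.1 p.2)).card

/-- Number of elements whose removal leaves a set not contained in a line. -/
noncomputable def nu (W : Finset (ι × κ)) : ℕ :=
  (W.filter (fun x => ¬ isRow (W.erase x) ∧ ¬ isCol (W.erase x))).card

/-- Number of ways to split `W` into a row set and a column set of size at least two each. -/
noncomputable def sg (W : Finset (ι × κ)) : ℕ :=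
  ((univ : Finset (Finset (ι × κ) × Finset (ι × κ))).filter (fun p =>
    isRow p.1 ∧ isCol p.2 ∧ 2 ≤ p.1.card ∧ 2 ≤ p.2.card ∧ Disjoint p.1 p.2 ∧
      p.1 ∪ p.2 = W)).card
end

/-- A 2 × 3 block minus a cell. -/
def spR {ι κ : Type} (W : Finset (ι × κ)) : Prop :=
  ∃ (i i' : ι) (j j' k : κ), i ≠ i' ∧ j ≠ j' ∧ k ≠ j ∧ k ≠ j' ∧
    W = {(i, j), (i, j'), (i', j), (i', j'), (i, k)}

/-- A 3 × 2 block minus a cell. -/
def spC {ι κ : Type} (W : Finset (ι × κ)) : Prop :=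
  ∃ (i i' k : ι) (j j' : κ), i ≠ i' ∧ j ≠ j' ∧ k ≠ i ∧ k ≠ i' ∧
    W = {(i, j), (i', j), (i, j'), (i', j'), (k, j)}

/-- **SC-FOUR**: the degree four inequality. -/
def StmtFour : Prop := ∀ (ι κ : Type) [Fintype ι] [Fintype κ] (t : ι × κ → ℝ), (∀ x, 0 ≤ t x) →
  T t * eS t 3 ≤ K t * eS t 2 + T t * (rS t 3 + lS t 3) + rS t 2 * lS t 2

/-- **SC-COMB**: the combinatorial lemma on sets of at least five cells. -/
def StmtComb : Prop := ∀ (ι κ : Type) [Fintype ι] [Fintype κ] (W : Finset (ι × κ)),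
  5 ≤ W.card → 2 * nu W ≤ G2 W + 2 * sg W + (if spR W ∨ spC W then 2 else 0)

/-- **SC-SPEC**: the exceptional sets are paid for by the doubled pairs. -/
def StmtSpec : Prop := ∀ (ι κ : Type) [Fintype ι] [Fintype κ] (t : ι × κ → ℝ), (∀ x, 0 ≤ t x) →
  (∑ W ∈ (univ : Finset (Finset (ι × κ))) with spR W ∨ spC W, wt t W) ≤
    (1 / 2) * ∑ S ∈ (univ : Finset (Finset (ι × κ))) with 3 ≤ S.card,
      ∑ x ∈ S, ∑ y ∈ S, if gen x y then t x * t y * wt t S else 0

/-- **SC-IN**: pairs `(S, x)` with `x ∈ S`, and splitting of the row-column products. -/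
def StmtIn : Prop := ∀ (ι κ : Type) [Fintype ι] [Fintype κ] (t : ι × κ → ℝ), (∀ x, 0 ≤ t x) →
  (∑ S ∈ N4 ι κ, ∑ x ∈ S, t x * wt t S) +
      (∑ W ∈ (univ : Finset (Finset (ι × κ))) with 5 ≤ W.card, (sg W : ℝ) * wt t W) ≤
    (∑ S ∈ (univ : Finset (Finset (ι × κ))) with 3 ≤ S.card,
      ∑ x ∈ S, ∑ y ∈ Sᶜ, if gen x y then t x * t y * wt t S else 0) +
    ∑ A ∈ (univ : Finset (Finset (ι × κ))) with isRow A ∧ 2 ≤ A.card,
      ∑ B ∈ (univ : Finset (Finset (ι × κ))) with isCol B ∧ 2 ≤ B.card ∧ 5 ≤ A.card + B.card,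
        wt t A * wt t B

/-- **SC-OUT**: two reindexing identities. -/
def StmtOut : Prop := ∀ (ι κ : Type) [Fintype ι] [Fintype κ] (t : ι × κ → ℝ),
  (∑ S ∈ N4 ι κ, ∑ x ∈ Sᶜ, t x * wt t S) =
    (∑ W ∈ (univ : Finset (Finset (ι × κ))) with 5 ≤ W.card, (nu W : ℝ) * wt t W) ∧
  K t * (∑ S ∈ (univ : Finset (Finset (ι × κ))) with 3 ≤ S.card, wt t S) =
    (1 / 2) * (∑ W ∈ (univ : Finset (Finset (ι × κ))) with 5 ≤ W.card, (G2 W : ℝ) * wt t W) +
    (∑ S ∈ (univ : Finset (Finset (ι × κ))) with 3 ≤ S.card,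
      ∑ x ∈ S, ∑ y ∈ Sᶜ, if gen x y then t x * t y * wt t S else 0) +
    (1 / 2) * ∑ S ∈ (univ : Finset (Finset (ι × κ))) with 3 ≤ S.card,
      ∑ x ∈ S, ∑ y ∈ S, if gen x y then t x * t y * wt t S else 0

/-- The grid inequality (assembled by helper548 from the five pieces above). -/
def StmtGrid : Prop := ∀ (ι κ : Type) [Fintype ι] [Fintype κ] (t : ι × κ → ℝ), (∀ x, 0 ≤ t x) →
  ((∏ x, (1 + t x)) - 1) * (T t - K t) ≤
    (∑ i : ι, ((∏ k : κ, (1 + t (i, k))) - 1)) * (∑ k : κ, ((∏ i : ι, (1 + t (i, k))) - 1))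

/-! ### From the grid to set systems -/

/-- Cell weights of a labelled set `O`. -/
noncomputable def cellWt {α ι κ : Type} (t : α → ℝ) (O : Finset α) (row : α → ι) (col : α → κ)
    (x : ι × κ) : ℝ :=
  (∏ a ∈ O with (row a, col a) = x, (1 + t a)) - 1

/-- **SC-PUSH**: push-forward of the subset sums of `O` to the grid. -/
def StmtPush : Prop := ∀ (α ι κ : Type) [Fintype ι] [Fintype κ] (t : α → ℝ) (O : Finset α)
    (row : α → ι) (col : α → κ) (Q : Finset (ι × κ) → Prop),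
  (∑ S ∈ O.powerset with Q (S.image (fun a => (row a, col a))), ∏ a ∈ S, t a) =
    ∑ W ∈ (univ : Finset (Finset (ι × κ))) with Q W, wt (cellWt t O row col) W

/-- **SC-ABS** (from `StmtGrid` and `StmtPush`): the abstract correlation inequality. -/
def StmtAbs : Prop := ∀ (α ι κ : Type) [Fintype ι] [Fintype κ] (t : α → ℝ)
    (O L Le Lf : Finset α) (row : α → ι) (col : α → κ) (p11 p10 p01 p00 : Finset α → Prop),
  (∀ x, 0 ≤ t x) → Disjoint O L → Le ⊆ L → Lf ⊆ L →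
  (∀ B ⊆ O ∪ L, p11 B → (B ∩ O).Nonempty) →
  (∀ B ⊆ O ∪ L, (B ∩ O).Nonempty →
    ¬ ((∀ x ∈ B ∩ O, ∀ y ∈ B ∩ O, row x = row y) ∧ B ∩ L ⊆ Le) → p10 B) →
  (∀ B ⊆ O ∪ L, (B ∩ O).Nonempty →
    ¬ ((∀ x ∈ B ∩ O, ∀ y ∈ B ∩ O, col x = col y) ∧ B ∩ L ⊆ Lf) → p01 B) →
  (∀ B ⊆ O ∪ L, p00 B → (B ∩ O).Nonempty ∧
    ¬ ((∀ x ∈ B ∩ O, ∀ y ∈ B ∩ O, row x = row y) ∧ B ∩ L ⊆ Le) ∧
    ¬ ((∀ x ∈ B ∩ O, ∀ y ∈ B ∩ O, col x = col y) ∧ B ∩ L ⊆ Lf) ∧
    ¬ (∃ x ∈ B ∩ O, ∃ y ∈ B ∩ O, row x ≠ row y ∧ col x ≠ col y ∧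
        (∀ z ∈ B ∩ O, (row z = row x ∧ col z = col x) ∨ (row z = row y ∧ col z = col y)) ∧
        B ∩ L ⊆ Le ∩ Lf) ∧
    ¬ ((∀ x ∈ B ∩ O, ∀ y ∈ B ∩ O, row x = row y ∧ col x = col y) ∧
        ∃ g ∈ L, B ∩ L ⊆ insert g (Le ∩ Lf))) →
  (∑ B ∈ (O ∪ L).powerset with p11 B, ∏ a ∈ B, t a) *
      (∑ B ∈ (O ∪ L).powerset with p00 B, ∏ a ∈ B, t a) ≤
    (∑ B ∈ (O ∪ L).powerset with p10 B, ∏ a ∈ B, t a) *
      (∑ B ∈ (O ∪ L).powerset with p01 B, ∏ a ∈ B, t a)

/-- **SC-MAT** (from `StmtAbs`): the inequality for an independent pair in a matroid of rank two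
or three (form with a coercion of the index set; the clean form is `StmtMatC`). -/
def StmtMat : Prop := ∀ (α : Type) [Fintype α] (M : Matroid α), M.E = Set.univ → M.eRank ≤ 3 →
  ∀ (e f : α), e ≠ f → M.Indep {e, f} → ∀ (z : α → ℝ), (∀ x, 0 < z x) →
  (∑ B ∈ ((univ : Finset α) \ {e, f}).powerset with M.Spanning (insert e (insert f (B : Set α))),
      ∏ a ∈ B, z a) *
    (∑ B ∈ ((univ : Finset α) \ {e, f}).powerset with M.Spanning (B : Set α), ∏ a ∈ B, z a) ≤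
  (∑ B ∈ ((univ : Finset α) \ {e, f}).powerset with M.Spanning (insert e (B : Set α)),
      ∏ a ∈ B, z a) *
    (∑ B ∈ ((univ : Finset α) \ {e, f}).powerset with M.Spanning (insert f (B : Set α)),
      ∏ a ∈ B, z a)

/-- Clean form of **SC-MAT**. -/
def StmtMatC : Prop := ∀ (α : Type) [Fintype α] (M : Matroid α), M.E = Set.univ → M.eRank ≤ 3 →
  ∀ (e f : α), e ≠ f → M.Indep {e, f} → ∀ (z : α → ℝ), (∀ x, 0 < z x) →
  (∑ B ∈ ((univ : Finset α) \ {e, f}).powerset with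
      M.Spanning ((insert e (insert f B) : Finset α) : Set α), ∏ a ∈ B, z a) *
    (∑ B ∈ ((univ : Finset α) \ {e, f}).powerset with
      M.Spanning ((B : Finset α) : Set α), ∏ a ∈ B, z a) ≤
  (∑ B ∈ ((univ : Finset α) \ {e, f}).powerset with
      M.Spanning ((insert e B : Finset α) : Set α), ∏ a ∈ B, z a) *
    (∑ B ∈ ((univ : Finset α) \ {e, f}).powerset with
      M.Spanning ((insert f B : Finset α) : Set α), ∏ a ∈ B, z a)

end Pool.Agent.H548.SC
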