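import Pool.Agent.H548.SC.Defs

set_option autoImplicit false
set_option linter.unusedSectionVars false
open Classical Finset

namespace Pool.Agent.H548.SC

section
variable {ι κ : Type} [Fintype ι] [Fintype κ]

lemma wt_nonneg {t : ι × κ → ℝ} (ht : ∀ x, 0 ≤ t x) (S : Finset (ι × κ)) : 0 ≤ wt t S :=
  Finset.prod_nonneg (fun x _ => ht x)

lemma prod_finset (t : ι × κ → ℝ) (U : Finset (ι × κ)) :
    ∏ x ∈ U, (1 + t x) = ∑ S ∈ U.powerset, wt t S := by
  rw [Finset.prod_one_add]; rfl

lemma prod_finset_sub (t : ι × κ → ℝ) (U : Finset (ι × κ)) :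
    ∏ x ∈ U, (1 + t x) - 1 = ∑ S ∈ U.powerset with S.Nonempty, wt t S := by
  rw [prod_finset]
  have h := Finset.sum_filter_add_sum_filter_not U.powerset (fun S => S.Nonempty) (wt t)
  have h2 : (U.powerset.filter (fun S => ¬ S.Nonempty)) = {∅} := by
    ext S
    simp only [mem_filter, mem_powerset, not_nonempty_iff_eq_empty, mem_singleton]
    constructor
    · exact fun h => h.2
    · rintro rfl; simp
  rw [h2, Finset.sum_singleton] at h
  have h3 : wt t (∅ : Finset (ι × κ)) = 1 := by simp [wt]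
  rw [h3] at h
  linarith

lemma row_prod (t : ι × κ → ℝ) (i : ι) :
    ∏ k : κ, (1 + t (i, k)) = ∏ x ∈ (univ : Finset (ι × κ)) with x.1 = i, (1 + t x) := by
  refine Finset.prod_nbij' (fun k => (i, k)) (fun x => x.2) ?_ ?_ ?_ ?_ ?_
  · intro k _; simp
  · intro x _; simp
  · intro k _; rfl
  · rintro ⟨a, b⟩ hx; simp only [mem_filter] at hx; simp [← hx.2]
  · intro k _; rfl

lemma col_prod (t : ι × κ → ℝ) (k : κ) :
    ∏ i : ι, (1 + t (i, k)) = ∏ x ∈ (univ : Finset (ι × κ)) with x.2 = k, (1 + t x) := by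
  refine Finset.prod_nbij' (fun i => (i, k)) (fun x => x.1) ?_ ?_ ?_ ?_ ?_
  · intro k _; simp
  · intro x _; simp
  · intro k _; rfl
  · rintro ⟨a, b⟩ hx; simp only [mem_filter] at hx; simp [← hx.2]
  · intro k _; rfl

lemma sum_rows (t : ι × κ → ℝ) :
    (∑ i : ι, ((∏ k : κ, (1 + t (i, k))) - 1)) =
      ∑ S ∈ (univ : Finset (Finset (ι × κ))) with isRow S, wt t S := by
  have h1 : ∀ i : ι, ((∏ k : κ, (1 + t (i, k))) - 1) =
      ∑ S ∈ ((univ : Finset (ι × κ)).filter (fun x => x.1 = i)).powerset with S.Nonempty, wt t S := by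
    intro i; rw [row_prod, prod_finset_sub]
  rw [Finset.sum_congr rfl (fun i _ => h1 i)]
  rw [Finset.sum_comm' (t' := (univ : Finset (Finset (ι × κ))).filter (fun S => isRow S))
    (s' := fun S => (univ : Finset ι).filter (fun i => ∀ x ∈ S, x.1 = i))]
  · apply Finset.sum_congr rfl
    intro S hS
    simp only [mem_filter, mem_univ, true_and] at hS
    obtain ⟨⟨x, hx⟩, hrow⟩ := hS
    have : (univ : Finset ι).filter (fun i => ∀ x ∈ S, x.1 = i) = {x.1} := by
      ext i; simp only [mem_filter, mem_univ, true_and, mem_singleton]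
      constructor
      · intro h; exact (h x hx).symm
      · rintro rfl y hy; exact hrow y hy x hx
    rw [this, Finset.sum_singleton]
  · intro i S
    simp only [mem_filter, mem_univ, true_and, mem_powerset]
    constructor
    · rintro ⟨hsub, hne⟩
      have h2 : ∀ x ∈ S, x.1 = i := fun x hx => by
        have := hsub hx; simpa using this
      exact ⟨h2, hne, fun x hx y hy => by rw [h2 x hx, h2 y hy]⟩
    · rintro ⟨h, hne, _⟩
      exact ⟨fun x hx => by simpa using h x hx, hne⟩

lemma sum_cols (t : ι × κ → ℝ) :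
    (∑ k : κ, ((∏ i : ι, (1 + t (i, k))) - 1)) =
      ∑ S ∈ (univ : Finset (Finset (ι × κ))) with isCol S, wt t S := by
  have h1 : ∀ k : κ, ((∏ i : ι, (1 + t (i, k))) - 1) =
      ∑ S ∈ ((univ : Finset (ι × κ)).filter (fun x => x.2 = k)).powerset with S.Nonempty, wt t S := by
    intro i; rw [col_prod, prod_finset_sub]
  rw [Finset.sum_congr rfl (fun i _ => h1 i)]
  rw [Finset.sum_comm' (t' := (univ : Finset (Finset (ι × κ))).filter (fun S => isCol S))
    (s' := fun S => (univ : Finset κ).filter (fun i => ∀ x ∈ S, x.2 = i))]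
  · apply Finset.sum_congr rfl
    intro S hS
    simp only [mem_filter, mem_univ, true_and] at hS
    obtain ⟨⟨x, hx⟩, hrow⟩ := hS
    have : (univ : Finset κ).filter (fun i => ∀ x ∈ S, x.2 = i) = {x.2} := by
      ext i; simp only [mem_filter, mem_univ, true_and, mem_singleton]
      constructor
      · intro h; exact (h x hx).symm
      · rintro rfl y hy; exact hrow y hy x hx
    rw [this, Finset.sum_singleton]
  · intro i S
    simp only [mem_filter, mem_univ, true_and, mem_powerset]
    constructor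
    · rintro ⟨hsub, hne⟩
      have h2 : ∀ x ∈ S, x.2 = i := fun x hx => by
        have := hsub hx; simpa using this
      exact ⟨h2, hne, fun x hx y hy => by rw [h2 x hx, h2 y hy]⟩
    · rintro ⟨h, hne, _⟩
      exact ⟨fun x hx => by simpa using h x hx, hne⟩

lemma split4 (f : Finset (ι × κ) → ℝ) (Q : Finset (ι × κ) → Prop) [DecidablePred Q] (hQ : ∀ S, Q S → S.Nonempty) :
    (∑ S ∈ (univ : Finset (Finset (ι × κ))) with Q S, f S) =
      (∑ S ∈ (univ : Finset (Finset (ι × κ))) with Q S ∧ S.card = 1, f S) +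
      (∑ S ∈ (univ : Finset (Finset (ι × κ))) with Q S ∧ S.card = 2, f S) +
      (∑ S ∈ (univ : Finset (Finset (ι × κ))) with Q S ∧ S.card = 3, f S) +
      (∑ S ∈ (univ : Finset (Finset (ι × κ))) with Q S ∧ 4 ≤ S.card, f S) := by
  simp only [Finset.sum_filter]
  rw [← Finset.sum_add_distrib, ← Finset.sum_add_distrib, ← Finset.sum_add_distrib]
  apply Finset.sum_congr rfl
  intro S _
  by_cases hq : Q S
  · have := (hQ S hq).card_pos
    rcases (by omega : S.card = 1 ∨ S.card = 2 ∨ S.card = 3 ∨ 4 ≤ S.card) with h | h | h | h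
    · simp [hq, h]
    · simp [hq, h]
    · simp [hq, h]
    · have h1 : S.card ≠ 1 := by omega
      have h2 : S.card ≠ 2 := by omega
      have h3 : S.card ≠ 3 := by omega
      simp [hq, h, h1, h2, h3]
  · simp [hq]

lemma sum_card_one (t : ι × κ → ℝ) (Q : Finset (ι × κ) → Prop) [DecidablePred Q] (hQ : ∀ x, Q {x}) :
    (∑ S ∈ (univ : Finset (Finset (ι × κ))) with Q S ∧ S.card = 1, wt t S) = T t := by
  unfold T
  symm
  refine Finset.sum_bij (fun x _ => ({x} : Finset (ι × κ))) ?_ ?_ ?_ ?_
  · intro x _; simp [hQ x]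
  · intro x _ y _ h; simpa using h
  · intro S hS
    simp only [mem_filter, mem_univ, true_and] at hS
    obtain ⟨x, hx⟩ := Finset.card_eq_one.1 hS.2
    exact ⟨x, mem_univ _, hx.symm⟩
  · intro x _; simp [wt]

lemma sum_gen_two (t : ι × κ → ℝ) :
    (∑ S ∈ (univ : Finset (Finset (ι × κ))) with
      (¬ isRow S ∧ ¬ isCol S) ∧ S.card = 2, wt t S) = K t := by
  -- the double sum over ordered pairs, fibred over the set {x, y}
  have h1 : (∑ x : ι × κ, ∑ y : ι × κ, if gen x y then t x * t y else 0) =
      ∑ p ∈ (univ : Finset ((ι × κ) × (ι × κ))) with gen p.1 p.2, t p.1 * t p.2 := by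
    rw [Finset.sum_filter]
    exact (Fintype.sum_prod_type (fun p : (ι × κ) × (ι × κ) =>
      if gen p.1 p.2 then t p.1 * t p.2 else 0)).symm
  unfold K
  rw [h1]
  rw [← Finset.sum_fiberwise_of_maps_to
    (s := (univ : Finset ((ι × κ) × (ι × κ))).filter (fun p => gen p.1 p.2))
    (t := (univ : Finset (Finset (ι × κ))).filter
      (fun S => (¬ isRow S ∧ ¬ isCol S) ∧ S.card = 2)) (g := fun p => {p.1, p.2})]
  · rw [Finset.mul_sum]
    apply Finset.sum_congr rfl
    intro S hS
    simp only [mem_filter, mem_univ, true_and] at hS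
    obtain ⟨⟨hr, hc⟩, h2⟩ := hS
    obtain ⟨x, y, hxy, rfl⟩ := Finset.card_eq_two.1 h2
    have hg : gen x y := by
      constructor
      · intro h
        apply hr
        refine ⟨⟨x, by simp⟩, ?_⟩
        intro a ha b hb
        simp only [mem_insert, mem_singleton] at ha hb
        rcases ha with rfl | rfl <;> rcases hb with rfl | rfl <;> simp [h]
      · intro h
        apply hc
        refine ⟨⟨x, by simp⟩, ?_⟩
        intro a ha b hb
        simp only [mem_insert, mem_singleton] at ha hb
        rcases ha with rfl | rfl <;> rcases hb with rfl | rfl <;> simp [h]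
    have hg' : gen y x := ⟨hg.1.symm, hg.2.symm⟩
    have hset : ((univ : Finset ((ι × κ) × (ι × κ))).filter (fun p => gen p.1 p.2)).filter
        (fun p => ({p.1, p.2} : Finset (ι × κ)) = {x, y}) = {(x, y), (y, x)} := by
      ext ⟨a, b⟩
      simp only [mem_filter, mem_univ, true_and, mem_insert, mem_singleton, Prod.mk.injEq]
      constructor
      · rintro ⟨hgab, hab⟩
        have ha : a = x ∨ a = y := by
          have : a ∈ ({x, y} : Finset (ι × κ)) := by rw [← hab]; simp
          simpa using this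
        have hb : b = x ∨ b = y := by
          have : b ∈ ({x, y} : Finset (ι × κ)) := by rw [← hab]; simp
          simpa using this
        rcases ha with rfl | rfl <;> rcases hb with rfl | rfl
        · exact absurd rfl hgab.1
        · left; exact ⟨rfl, rfl⟩
        · right; exact ⟨rfl, rfl⟩
        · exact absurd rfl hgab.1
      · rintro (⟨rfl, rfl⟩ | ⟨rfl, rfl⟩)
        · exact ⟨hg, rfl⟩
        · exact ⟨hg', Finset.pair_comm _ _⟩
    rw [hset]
    rw [Finset.sum_pair (by intro h; apply hxy; exact (Prod.mk.inj h).1)]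
    simp only [wt]
    rw [Finset.prod_pair hxy]
    ring
  · intro p hp
    simp only [mem_filter, mem_univ, true_and] at hp ⊢
    refine ⟨⟨?_, ?_⟩, ?_⟩
    · rintro ⟨_, h⟩; exact hp.1 (h p.1 (by simp) p.2 (by simp))
    · rintro ⟨_, h⟩; exact hp.2 (h p.1 (by simp) p.2 (by simp))
    · apply Finset.card_pair; intro h; exact hp.1 (by rw [h])

lemma e_two (t : ι × κ → ℝ) : eS t 2 = rS t 2 + lS t 2 + K t := by
  rw [← sum_gen_two t]
  unfold eS rS lS
  simp only [Finset.sum_filter]
  rw [← Finset.sum_add_distrib, ← Finset.sum_add_distrib]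
  apply Finset.sum_congr rfl
  intro S _
  by_cases h2 : S.card = 2
  · have hnot : ¬ (isRow S ∧ isCol S) := by
      rintro ⟨hr, hc⟩
      obtain ⟨x, y, hxy, rfl⟩ := Finset.card_eq_two.1 h2
      apply hxy
      exact Prod.ext (hr.2 x (by simp) y (by simp)) (hc.2 x (by simp) y (by simp))
    by_cases hr : isRow S
    · have hc : ¬ isCol S := fun hc => hnot ⟨hr, hc⟩
      simp [h2, hr, hc]
    · by_cases hc : isCol S
      · simp [h2, hr, hc]
      · simp [h2, hr, hc]
  · simp [h2]

lemma tail_ineq (hc : StmtComb) (hs : StmtSpec) (hi : StmtIn) (ho : StmtOut)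
    (t : ι × κ → ℝ) (ht : ∀ x, 0 ≤ t x) :
    T t * (∑ S ∈ N4 ι κ, wt t S) ≤
      K t * (∑ S ∈ (univ : Finset (Finset (ι × κ))) with 3 ≤ S.card, wt t S) +
      ∑ A ∈ (univ : Finset (Finset (ι × κ))) with isRow A ∧ 2 ≤ A.card,
      ∑ B ∈ (univ : Finset (Finset (ι × κ))) with isCol B ∧ 2 ≤ B.card ∧ 5 ≤ A.card + B.card,
        wt t A * wt t B := by
  obtain ⟨ho1, ho2⟩ := ho ι κ t
  have hi' := hi ι κ t ht
  have hs' := hs ι κ t ht
  -- T * sum = in + out
  have h1 : T t * (∑ S ∈ N4 ι κ, wt t S) =
      (∑ S ∈ N4 ι κ, ∑ x ∈ S, t x * wt t S) + (∑ S ∈ N4 ι κ, ∑ x ∈ Sᶜ, t x * wt t S) := by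
    rw [Finset.mul_sum, ← Finset.sum_add_distrib]
    apply Finset.sum_congr rfl
    intro S _
    rw [Finset.sum_add_sum_compl, ← Finset.sum_mul]
    rfl
  -- combinatorial lemma, summed
  have h2 : (∑ W ∈ (univ : Finset (Finset (ι × κ))) with 5 ≤ W.card, (nu W : ℝ) * wt t W) ≤
      (1 / 2) * (∑ W ∈ (univ : Finset (Finset (ι × κ))) with 5 ≤ W.card, (G2 W : ℝ) * wt t W) +
      (∑ W ∈ (univ : Finset (Finset (ι × κ))) with 5 ≤ W.card, (sg W : ℝ) * wt t W) +
      (∑ W ∈ (univ : Finset (Finset (ι × κ))) with spR W ∨ spC W, wt t W) := by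
    have h3 : (∑ W ∈ (univ : Finset (Finset (ι × κ))) with 5 ≤ W.card,
        (if spR W ∨ spC W then (1 : ℝ) else 0) * wt t W) ≤
        (∑ W ∈ (univ : Finset (Finset (ι × κ))) with spR W ∨ spC W, wt t W) := by
      have : (∑ W ∈ (univ : Finset (Finset (ι × κ))) with spR W ∨ spC W, wt t W) =
          ∑ W : Finset (ι × κ), (if spR W ∨ spC W then (1 : ℝ) else 0) * wt t W := by
        rw [Finset.sum_filter]
        apply Finset.sum_congr rfl
        intro W _
        split_ifs <;> simp
      rw [this]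
      apply Finset.sum_le_sum_of_subset_of_nonneg (Finset.filter_subset _ _)
      intro W _ _
      apply mul_nonneg _ (wt_nonneg ht W)
      split_ifs <;> norm_num
    have h4 : (∑ W ∈ (univ : Finset (Finset (ι × κ))) with 5 ≤ W.card, (nu W : ℝ) * wt t W) ≤
        (1 / 2) * (∑ W ∈ (univ : Finset (Finset (ι × κ))) with 5 ≤ W.card, (G2 W : ℝ) * wt t W) +
        (∑ W ∈ (univ : Finset (Finset (ι × κ))) with 5 ≤ W.card, (sg W : ℝ) * wt t W) +
        (∑ W ∈ (univ : Finset (Finset (ι × κ))) with 5 ≤ W.card,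
          (if spR W ∨ spC W then (1 : ℝ) else 0) * wt t W) := by
      rw [Finset.mul_sum, ← Finset.sum_add_distrib, ← Finset.sum_add_distrib]
      apply Finset.sum_le_sum
      intro W hW
      simp only [mem_filter, mem_univ, true_and] at hW
      have h5 := hc ι κ W hW
      have h6 : (2 : ℝ) * nu W ≤ G2 W + 2 * sg W + (if spR W ∨ spC W then 2 else 0) := by
        have : ((2 * nu W : ℕ) : ℝ) ≤ ((G2 W + 2 * sg W + (if spR W ∨ spC W then 2 else 0) : ℕ) : ℝ) :=
          Nat.cast_le.2 h5
        push_cast at this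
        exact this
      have h7 : (nu W : ℝ) ≤ (1 / 2) * G2 W + sg W + (if spR W ∨ spC W then (1 : ℝ) else 0) := by
        split_ifs at h6 ⊢ <;> linarith
      calc (nu W : ℝ) * wt t W ≤
          ((1 / 2) * G2 W + sg W + (if spR W ∨ spC W then (1 : ℝ) else 0)) * wt t W :=
            mul_le_mul_of_nonneg_right h7 (wt_nonneg ht W)
        _ = _ := by ring
    linarith
  rw [h1, ho1, ho2]
  linarith

theorem grid_of (h4 : StmtFour) (hc : StmtComb) (hs : StmtSpec) (hi : StmtIn) (ho : StmtOut)
    (t : ι × κ → ℝ) (ht : ∀ x, 0 ≤ t x) :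
    ((∏ x, (1 + t x)) - 1) * (T t - K t) ≤
      (∑ i : ι, ((∏ k : κ, (1 + t (i, k))) - 1)) * (∑ k : κ, ((∏ i : ι, (1 + t (i, k))) - 1)) := by
  have hP : (∏ x, (1 + t x)) - 1 =
      ∑ S ∈ (univ : Finset (Finset (ι × κ))) with S.Nonempty, wt t S := by
    rw [prod_finset_sub, Finset.powerset_univ]
  rw [hP, sum_rows, sum_cols]
  rw [split4 (wt t) (fun S => S.Nonempty) (fun S h => h),
    split4 (wt t) (fun S => isRow S) (fun S h => h.1),
    split4 (wt t) (fun S => isCol S) (fun S h => h.1)]
  rw [sum_card_one t (fun S => S.Nonempty) (fun x => by simp),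
    sum_card_one t (fun S => isRow S) (fun x => ⟨by simp, by simp⟩),
    sum_card_one t (fun S => isCol S) (fun x => ⟨by simp, by simp⟩)]
  have e2' : (∑ S ∈ (univ : Finset (Finset (ι × κ))) with S.Nonempty ∧ S.card = 2, wt t S) =
      eS t 2 := by
    unfold eS
    apply Finset.sum_congr _ (fun _ _ => rfl)
    ext S; simp only [mem_filter, mem_univ, true_and]
    constructor
    · exact fun h => h.2
    · intro h; exact ⟨Finset.card_pos.1 (by omega), h⟩
  have e3' : (∑ S ∈ (univ : Finset (Finset (ι × κ))) with S.Nonempty ∧ S.card = 3, wt t S) =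
      eS t 3 := by
    unfold eS
    apply Finset.sum_congr _ (fun _ _ => rfl)
    ext S; simp only [mem_filter, mem_univ, true_and]
    constructor
    · exact fun h => h.2
    · intro h; exact ⟨Finset.card_pos.1 (by omega), h⟩
  have r2' : (∑ S ∈ (univ : Finset (Finset (ι × κ))) with isRow S ∧ S.card = 2, wt t S) =
      rS t 2 := rfl
  have r3' : (∑ S ∈ (univ : Finset (Finset (ι × κ))) with isRow S ∧ S.card = 3, wt t S) =
      rS t 3 := rfl
  have l2' : (∑ S ∈ (univ : Finset (Finset (ι × κ))) with isCol S ∧ S.card = 2, wt t S) =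
      lS t 2 := rfl
  have l3' : (∑ S ∈ (univ : Finset (Finset (ι × κ))) with isCol S ∧ S.card = 3, wt t S) =
      lS t 3 := rfl
  rw [e2', e3', r2', r3', l2', l3']
  -- the part with at least four elements
  have e4' : (∑ S ∈ (univ : Finset (Finset (ι × κ))) with S.Nonempty ∧ 4 ≤ S.card, wt t S) =
      (∑ S ∈ (univ : Finset (Finset (ι × κ))) with isRow S ∧ 4 ≤ S.card, wt t S) +
      (∑ S ∈ (univ : Finset (Finset (ι × κ))) with isCol S ∧ 4 ≤ S.card, wt t S) +
      (∑ S ∈ N4 ι κ, wt t S) := by
    unfold N4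
    simp only [Finset.sum_filter]
    rw [← Finset.sum_add_distrib, ← Finset.sum_add_distrib]
    apply Finset.sum_congr rfl
    intro S _
    by_cases h2 : 4 ≤ S.card
    · have hne : S.Nonempty := Finset.card_pos.1 (by omega)
      have hnot : ¬ (isRow S ∧ isCol S) := by
        rintro ⟨hr, hc⟩
        have : S.card ≤ 1 := by
          rw [Finset.card_le_one]
          intro a ha b hb
          exact Prod.ext (hr.2 a ha b hb) (hc.2 a ha b hb)
        omega
      by_cases hr : isRow S
      · have hc : ¬ isCol S := fun hc => hnot ⟨hr, hc⟩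
        simp [h2, hr, hc, hne]
      · by_cases hc : isCol S
        · simp [h2, hr, hc, hne]
        · simp [h2, hr, hc, hne]
    · simp [h2]
  have e34 : (∑ S ∈ (univ : Finset (Finset (ι × κ))) with 3 ≤ S.card, wt t S) = eS t 3 +
      (∑ S ∈ (univ : Finset (Finset (ι × κ))) with S.Nonempty ∧ 4 ≤ S.card, wt t S) := by
    unfold eS
    simp only [Finset.sum_filter]
    rw [← Finset.sum_add_distrib]
    apply Finset.sum_congr rfl
    intro S _
    by_cases h3 : S.card = 3
    · simp [h3]
    · by_cases h4 : 4 ≤ S.card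
      · have hne : S.Nonempty := Finset.card_pos.1 (by omega)
        have : 3 ≤ S.card := by omega
        simp [h3, h4, hne, this]
      · have : ¬ 3 ≤ S.card := by omega
        simp [h3, h4, this]
  -- the products of rows and columns
  have hEF : (∑ A ∈ (univ : Finset (Finset (ι × κ))) with isRow A ∧ 2 ≤ A.card,
      ∑ B ∈ (univ : Finset (Finset (ι × κ))) with isCol B ∧ 2 ≤ B.card ∧ 5 ≤ A.card + B.card,
        wt t A * wt t B) + rS t 2 * lS t 2 ≤
      (rS t 2 + rS t 3 +
        ∑ S ∈ (univ : Finset (Finset (ι × κ))) with isRow S ∧ 4 ≤ S.card, wt t S) *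
      (lS t 2 + lS t 3 +
        ∑ S ∈ (univ : Finset (Finset (ι × κ))) with isCol S ∧ 4 ≤ S.card, wt t S) := by
    have hr : (rS t 2 + rS t 3 +
        ∑ S ∈ (univ : Finset (Finset (ι × κ))) with isRow S ∧ 4 ≤ S.card, wt t S) =
        ∑ A ∈ (univ : Finset (Finset (ι × κ))) with isRow A ∧ 2 ≤ A.card, wt t A := by
      unfold rS
      simp only [Finset.sum_filter]
      rw [← Finset.sum_add_distrib, ← Finset.sum_add_distrib]
      apply Finset.sum_congr rfl
      intro S _
      by_cases hq : isRow S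
      · rcases (by omega : S.card ≤ 1 ∨ S.card = 2 ∨ S.card = 3 ∨ 4 ≤ S.card) with h | h | h | h
        · have h1 : S.card ≠ 2 := by omega
          have h2 : S.card ≠ 3 := by omega
          have h3 : ¬ 4 ≤ S.card := by omega
          have h4 : ¬ 2 ≤ S.card := by omega
          simp [hq, h1, h2, h3, h4]
        · simp [hq, h]
        · simp [hq, h]
        · have h1 : S.card ≠ 2 := by omega
          have h2 : S.card ≠ 3 := by omega
          have h4 : 2 ≤ S.card := by omega
          simp [hq, h1, h2, h, h4]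
      · simp [hq]
    have hl : (lS t 2 + lS t 3 +
        ∑ S ∈ (univ : Finset (Finset (ι × κ))) with isCol S ∧ 4 ≤ S.card, wt t S) =
        ∑ A ∈ (univ : Finset (Finset (ι × κ))) with isCol A ∧ 2 ≤ A.card, wt t A := by
      unfold lS
      simp only [Finset.sum_filter]
      rw [← Finset.sum_add_distrib, ← Finset.sum_add_distrib]
      apply Finset.sum_congr rfl
      intro S _
      by_cases hq : isCol S
      · rcases (by omega : S.card ≤ 1 ∨ S.card = 2 ∨ S.card = 3 ∨ 4 ≤ S.card) with h | h | h | h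
        · have h1 : S.card ≠ 2 := by omega
          have h2 : S.card ≠ 3 := by omega
          have h3 : ¬ 4 ≤ S.card := by omega
          have h4 : ¬ 2 ≤ S.card := by omega
          simp [hq, h1, h2, h3, h4]
        · simp [hq, h]
        · simp [hq, h]
        · have h1 : S.card ≠ 2 := by omega
          have h2 : S.card ≠ 3 := by omega
          have h4 : 2 ≤ S.card := by omega
          simp [hq, h1, h2, h, h4]
      · simp [hq]
    rw [hr, hl]
    unfold rS lS
    rw [Finset.sum_mul_sum, Finset.sum_mul_sum]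
    -- each A: split according to 5 ≤ |A| + |B|
    have hA : ∀ A ∈ (univ : Finset (Finset (ι × κ))).filter (fun A => isRow A ∧ 2 ≤ A.card),
        (∑ B ∈ (univ : Finset (Finset (ι × κ))) with isCol B ∧ 2 ≤ B.card ∧ 5 ≤ A.card + B.card,
          wt t A * wt t B) +
        (if A.card = 2 then ∑ B ∈ (univ : Finset (Finset (ι × κ))) with isCol B ∧ B.card = 2,
          wt t A * wt t B else 0) ≤
        ∑ B ∈ (univ : Finset (Finset (ι × κ))) with isCol B ∧ 2 ≤ B.card, wt t A * wt t B := by
      intro A hA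
      have hwt : ∀ B, 0 ≤ wt t A * wt t B := fun B => mul_nonneg (wt_nonneg ht A) (wt_nonneg ht B)
      split_ifs with h2
      · simp only [Finset.sum_filter]
        rw [← Finset.sum_add_distrib]
        apply Finset.sum_le_sum
        intro B _
        by_cases hB : isCol B
        · by_cases hB2 : B.card = 2
          · simp [hB, hB2, h2]
          · by_cases hB3 : 2 ≤ B.card
            · have : 5 ≤ A.card + B.card := by omega
              simp [hB, hB2, hB3, this]
            · simp [hB, hB2, hB3]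
        · simp [hB]
      · rw [add_zero]
        apply Finset.sum_le_sum_of_subset_of_nonneg
        · intro B hB
          simp only [mem_filter, mem_univ, true_and] at hB ⊢
          exact ⟨hB.1, hB.2.1⟩
        · intro B _ _; exact hwt B
    have hsum := Finset.sum_le_sum hA
    rw [Finset.sum_add_distrib] at hsum
    have heq : (∑ A ∈ (univ : Finset (Finset (ι × κ))) with isRow A ∧ 2 ≤ A.card,
        (if A.card = 2 then ∑ B ∈ (univ : Finset (Finset (ι × κ))) with isCol B ∧ B.card = 2,
          wt t A * wt t B else 0)) =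
        ∑ A ∈ (univ : Finset (Finset (ι × κ))) with isRow A ∧ A.card = 2,
          ∑ B ∈ (univ : Finset (Finset (ι × κ))) with isCol B ∧ B.card = 2, wt t A * wt t B := by
      rw [← Finset.sum_filter, Finset.filter_filter]
      apply Finset.sum_congr _ (fun _ _ => rfl)
      ext A
      simp only [mem_filter, mem_univ, true_and]
      constructor
      · rintro ⟨⟨h1, _⟩, h3⟩; exact ⟨h1, h3⟩
      · rintro ⟨h1, h3⟩; exact ⟨⟨h1, by omega⟩, h3⟩
    rw [heq] at hsum
    exact hsum
  have hfour := h4 ι κ t ht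
  have htail := tail_ineq hc hs hi ho t ht
  have he2 := e_two t
  rw [e34] at htail
  rw [e4'] at htail ⊢
  set r4 := ∑ S ∈ (univ : Finset (Finset (ι × κ))) with isRow S ∧ 4 ≤ S.card, wt t S
  set l4 := ∑ S ∈ (univ : Finset (Finset (ι × κ))) with isCol S ∧ 4 ≤ S.card, wt t S
  set n4 := ∑ S ∈ N4 ι κ, wt t S
  rw [he2] at hfour ⊢
  nlinarith [hfour, htail, hEF]

end

theorem stmtGrid_of (h4 : StmtFour) (hc : StmtComb) (hs : StmtSpec) (hi : StmtIn) (ho : StmtOut) :
    StmtGrid := fun _ _ _ _ t ht => grid_of h4 hc hs hi ho t ht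

end Pool.Agent.H548.SC
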