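import Pool.Agent.H548.SC.Defs
import Pool.Agent.R928.SC.Mat

set_option autoImplicit false
open Classical Finset

namespace Pool.Agent.H548.SC

theorem stmtMatC_of (h : StmtAbs) : StmtMatC := by
  intro α _ M hE hr e f hef hI z hz
  have h1 := Pool.Agent.R928.SC.matClean h α M hE hr e f hef hI z hz
  simpa only [Finset.coe_insert] using h1

end Pool.Agent.H548.SC
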